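import Pool.Agent.H20.MT.Stmts

/-!
# Project MTA, module CKL: the unsigned main part dominates
-/

set_option autoImplicit false

namespace MTA
open Finset

namespace CKLAux

variable {P : Finset ℕ} {n : ℕ}

/-- the extra part -/
noncomputable def RX (k : Fin (n + 1)) (p : ℕ) : Option (Fin (n + 1)) → Option (Fin (n + 1)) → ℝ
  | some l, none => if l = k then 0 else 1 / ((p : ℝ) * (p - 1))
  | _, _ => 0

/-- interpolated local matrix -/
noncomputable def TS (k : Fin (n + 1)) (s : Finset ℕ) (p : ℕ)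
    (x z : Option (Fin (n + 1))) : ℝ := mY k p x z + if p ∈ s then RX k p x z else 0

theorem mY_nonneg (k : Fin (n + 1)) (p : ℕ) (x z) : 0 ≤ mY k p x z := by
  rcases x with _ | l <;> rcases z with _ | m <;> simp only [mY] <;> positivity

theorem RX_nonneg (k : Fin (n + 1)) (p : ℕ) (hp : 1 ≤ p) (x z) : 0 ≤ RX k p x z := by
  have h1 : (1 : ℝ) ≤ p := by exact_mod_cast hp
  have h2 : (0 : ℝ) ≤ 1 / ((p : ℝ) * (p - 1)) :=
    div_nonneg (by norm_num) (mul_nonneg (by linarith) (by linarith))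
  rcases x with _ | l <;> rcases z with _ | m <;> simp only [RX] <;> first | exact le_rfl | (split_ifs <;> first | exact le_rfl | exact h2)

theorem TS_nonneg (k : Fin (n + 1)) (s : Finset ℕ) (p : ℕ) (hp : 1 ≤ p) (x z) :
    0 ≤ TS k s p x z := by
  unfold TS
  have := mY_nonneg k p x z
  have := RX_nonneg k p hp x z
  split_ifs <;> linarith

/-- the sign of `B` -/
noncomputable def sg (z : Option (Fin (n + 1))) : ℝ := if z.isSome then -1 else 1

theorem abs_mK (k : Fin (n + 1)) (p : ℕ) (hp : 1 ≤ p) (x z) :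
    |mK k p x z| = mY k p x z + RX k p x z := by
  have h1 : (1 : ℝ) ≤ p := by exact_mod_cast hp
  have h2 : (0 : ℝ) ≤ 1 / ((p : ℝ) * (p - 1)) :=
    div_nonneg (by norm_num) (mul_nonneg (by linarith) (by linarith))
  rcases x with _ | l <;> rcases z with _ | m <;> simp only [mK, mY, RX]
  · simp
  · simp
  · split_ifs
    · rw [abs_of_nonneg (by positivity)]; ring
    · rw [abs_neg, abs_of_nonneg h2]; ring
  · split_ifs <;> simp

/-- local comparison: same up to sign, or `mY` vanishes -/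
theorem mK_or (k : Fin (n + 1)) (p : ℕ) (x z) :
    sg z * mK k p x z = mY k p x z ∨ mY k p x z = 0 := by
  rcases x with _ | l <;> rcases z with _ | m <;>
    simp only [mK, mY, sg, Option.isSome_none, Option.isSome_some, Bool.false_eq_true, if_false, if_true]
  · left; simp
  · right; trivial
  · by_cases h : l = k
    · left; simp [h]
    · right; simp [h]
  · by_cases h : l = m ∧ l ≠ k
    · left; simp [h]
    · right; simp [h]

theorem abs_sg (z : Option (Fin (n + 1))) : |sg z| = 1 := by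
  unfold sg; split_ifs <;> simp

/-- global comparison of the products -/
theorem prod_cmp (k : Fin (n + 1)) (hP : ∀ p ∈ P, 1 ≤ p) (A B : Cfg P n) :
    |(∏ p : ↥P, sg (B p)) * ∏ p : ↥P, mK k p (A p) (B p) - ∏ p : ↥P, mY k p (A p) (B p)| ≤
      ∏ p : ↥P, (mY k p (A p) (B p) + RX k p (A p) (B p)) - ∏ p : ↥P, mY k p (A p) (B p) := by
  by_cases h : ∀ p : ↥P, sg (B p) * mK k p (A p) (B p) = mY k p (A p) (B p)
  · rw [← prod_mul_distrib, prod_congr rfl (fun p _ => h p), sub_self, abs_zero]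
    refine sub_nonneg.2 (prod_le_prod (fun p _ => mY_nonneg _ _ _ _) fun p _ => ?_)
    linarith [RX_nonneg k p (hP p p.2) (A p) (B p)]
  · push Not at h
    obtain ⟨p, hp⟩ := h
    have h0 : mY k p (A p) (B p) = 0 := (mK_or k p (A p) (B p)).resolve_left hp
    have h1 : ∏ p : ↥P, mY k p (A p) (B p) = 0 := prod_eq_zero (mem_univ p) h0
    rw [h1, sub_zero, sub_zero, abs_mul, abs_prod, abs_prod,
      prod_congr rfl (fun p _ => abs_sg (B p)), prod_const_one, one_mul,
      prod_congr rfl (fun (p : ↥P) _ => abs_mK k p (hP p p.2) (A p) (B p))]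

theorem TS_insert (k : Fin (n + 1)) (s : Finset ℕ) (q : ℕ) (hq : q ∉ s) (p : ℕ) (x z) :
    TS k (insert q s) p x z = TS k s p x z + if p = q then RX k p x z else 0 := by
  unfold TS
  by_cases h : p = q
  · subst h; simp [hq]
  · simp [h]

theorem step (k : Fin (n + 1)) (hP : ∀ p ∈ P, 2 ≤ p) (s : Finset ℕ) (q : ↥P) (hq : (q : ℕ) ∉ s)
    (y : Cfg P n → ℝ) (hy0 : ∀ A, 0 ≤ y A) (hy : ∀ A A', Ext A A' → y A' ≤ y A) (B : Cfg P n) :
    ltrans (TS k (insert (q : ℕ) s)) y B ≤
      (1 + n * (1 / (((q : ℕ) : ℝ) * ((q : ℕ) - 1)))) * ltrans (TS k s) y B := by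
  classical
  have hq2 : (2 : ℝ) ≤ (q : ℕ) := by exact_mod_cast hP q q.2
  have hc : (0 : ℝ) ≤ 1 / (((q : ℕ) : ℝ) * ((q : ℕ) - 1)) :=
    div_nonneg (by norm_num) (mul_nonneg (by linarith) (by linarith))
  have hTn : ∀ (A : Cfg P n) (p : ↥P), 0 ≤ TS k s p (A p) (B p) := fun A p =>
    TS_nonneg k s p (by have := hP p p.2; omega) _ _
  set G : Cfg P n → ℝ := fun A => y A * ∏ p : ↥P, TS k s p (A p) (B p) with hG
  have hG0 : ∀ A, 0 ≤ G A := fun A => mul_nonneg (hy0 A) (prod_nonneg fun p _ => hTn A p)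
  -- the pointwise difference
  have hdiff : ∀ A : Cfg P n, y A * ∏ p : ↥P, TS k (insert (q : ℕ) s) p (A p) (B p) =
      G A + y A * (RX k q (A q) (B q) * ∏ p ∈ univ.erase q, TS k s p (A p) (B p)) := by
    intro A
    rw [← mul_prod_erase univ _ (mem_univ q), hG]
    simp only
    rw [← mul_prod_erase univ (fun p : ↥P => TS k s p (A p) (B p)) (mem_univ q)]
    have : ∏ p ∈ univ.erase q, TS k (insert (q : ℕ) s) p (A p) (B p) =
        ∏ p ∈ univ.erase q, TS k s p (A p) (B p) := by
      refine prod_congr rfl fun p hp => ?_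
      have hpq : (p : ℕ) ≠ q := fun h => (mem_erase.1 hp).1 (Subtype.ext h)
      rw [TS_insert k s q hq, if_neg hpq, add_zero]
    rw [this, TS_insert k s q hq, if_pos rfl]
    ring
  -- the extra terms
  have hextra : ∀ l : Fin (n + 1), ∑ A : Cfg P n with A q = some l,
      y A * (RX k q (A q) (B q) * ∏ p ∈ univ.erase q, TS k s p (A p) (B p)) ≤
      (if l = k then 0 else 1 / (((q : ℕ) : ℝ) * ((q : ℕ) - 1))) * ∑ A : Cfg P n, G A := by
    intro l
    have hS0 : 0 ≤ ∑ A : Cfg P n, G A := sum_nonneg fun A _ => hG0 A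
    by_cases hBq : B q = none
    swap
    · refine le_trans (le_of_eq (sum_eq_zero fun A _ => ?_)) (mul_nonneg (by split_ifs <;> [rfl; exact hc]) hS0)
      have : RX k q (A q) (B q) = 0 := by
        rcases hA : A q with _ | a <;> rcases hB : B q with _ | b <;> simp_all [RX]
      rw [this]; ring
    by_cases hl : l = k
    · rw [if_pos hl]
      refine le_of_eq ?_
      rw [zero_mul]
      refine sum_eq_zero fun A hA => ?_
      rw [(mem_filter.1 hA).2, hBq]
      simp [RX, hl]
    rw [if_neg hl, mul_sum]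
    have h1 : ∑ A : Cfg P n with A q = some l,
        y A * (RX k q (A q) (B q) * ∏ p ∈ univ.erase q, TS k s p (A p) (B p)) ≤
        ∑ A : Cfg P n with A q = some l,
          1 / (((q : ℕ) : ℝ) * ((q : ℕ) - 1)) * G (Function.update A q none) := by
      refine sum_le_sum fun A hA => ?_
      have hAq : A q = some l := (mem_filter.1 hA).2
      have e1 : RX k q (A q) (B q) = 1 / (((q : ℕ) : ℝ) * ((q : ℕ) - 1)) := by
        rw [hAq, hBq]; simp [RX, hl]
      have e2 : ∏ p : ↥P, TS k s p ((Function.update A q none) p) (B p) =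
          ∏ p ∈ univ.erase q, TS k s p (A p) (B p) := by
        rw [← mul_prod_erase univ _ (mem_univ q), Function.update_self, hBq]
        have : TS k s q none none = 1 := by
          unfold TS; simp [mY, RX]
        rw [this, one_mul]
        refine prod_congr rfl fun p hp => ?_
        rw [Function.update_of_ne (mem_erase.1 hp).1]
      have e3 : y A ≤ y (Function.update A q none) := by
        refine hy _ _ fun p hp => ?_
        by_cases hpq : p = q
        · subst hpq; simp at hp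
        · rw [Function.update_of_ne hpq]
      rw [e1, hG]
      simp only
      rw [e2]
      have hpr : 0 ≤ ∏ p ∈ univ.erase q, TS k s p (A p) (B p) := prod_nonneg fun p _ => hTn A p
      have := mul_le_mul_of_nonneg_left (mul_le_mul_of_nonneg_right e3 hpr) hc
      calc y A * (1 / (((q : ℕ) : ℝ) * ((q : ℕ) - 1)) * ∏ p ∈ univ.erase q, TS k s p (A p) (B p))
          = 1 / (((q : ℕ) : ℝ) * ((q : ℕ) - 1)) * (y A * ∏ p ∈ univ.erase q, TS k s p (A p) (B p)) := by ring
        _ ≤ _ := this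
    refine h1.trans ?_
    rw [← sum_image (s := univ.filter fun A : Cfg P n => A q = some l)
      (g := fun A => Function.update A q none)
      (f := fun A => 1 / (((q : ℕ) : ℝ) * ((q : ℕ) - 1)) * G A)]
    · exact sum_le_sum_of_subset_of_nonneg (subset_univ _) fun A _ _ => mul_nonneg hc (hG0 A)
    · intro A hA A' hA' h
      simp only [coe_filter, mem_univ, true_and, Set.mem_ofPred_eq] at hA hA'
      funext p
      by_cases hpq : p = q
      · subst hpq; rw [hA, hA']
      · have := congrFun h p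
        simpa [Function.update_of_ne hpq] using this
  have hnone : ∑ A : Cfg P n with A q = none,
      y A * (RX k q (A q) (B q) * ∏ p ∈ univ.erase q, TS k s p (A p) (B p)) = 0 := by
    refine sum_eq_zero fun A hA => ?_
    rw [(mem_filter.1 hA).2]
    simp [RX]
  have hsplit : ∑ A : Cfg P n,
      y A * (RX k q (A q) (B q) * ∏ p ∈ univ.erase q, TS k s p (A p) (B p)) =
      ∑ o : Option (Fin (n + 1)), ∑ A : Cfg P n with A q = o,
      y A * (RX k q (A q) (B q) * ∏ p ∈ univ.erase q, TS k s p (A p) (B p)) :=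
    (sum_fiberwise univ (fun A : Cfg P n => A q) _).symm
  unfold ltrans
  rw [sum_congr rfl fun A _ => hdiff A, sum_add_distrib, hsplit, Fintype.sum_option, hnone, zero_add]
  have h2 := sum_le_sum (s := univ) fun l _ => hextra l
  rw [← sum_mul] at h2
  have h3 : ∑ l : Fin (n + 1), (if l = k then 0 else 1 / (((q : ℕ) : ℝ) * ((q : ℕ) - 1))) =
      n * (1 / (((q : ℕ) : ℝ) * ((q : ℕ) - 1))) := by
    rw [← add_sum_erase univ _ (mem_univ k), if_pos rfl, zero_add,
      sum_congr rfl (fun l hl => if_neg (mem_erase.1 hl).1), sum_const, card_erase_of_mem (mem_univ k),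
      card_univ, Fintype.card_fin, nsmul_eq_mul]
    simp
  rw [h3] at h2
  have : ∑ A : Cfg P n, G A = ∑ A : Cfg P n, y A * ∏ p : ↥P, TS k s p (A p) (B p) := rfl
  rw [← this]
  linarith

theorem full (k : Fin (n + 1)) (hP : ∀ p ∈ P, 2 ≤ p)
    (y : Cfg P n → ℝ) (hy0 : ∀ A, 0 ≤ y A) (hy : ∀ A A', Ext A A' → y A' ≤ y A) (B : Cfg P n)
    (s : Finset ℕ) (hs : s ⊆ P) :
    ltrans (TS k s) y B ≤ (∏ q ∈ s, (1 + n * (1 / ((q : ℝ) * (q - 1))))) * ltrans (mY k) y B := by
  classical
  induction s using Finset.induction with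
  | empty =>
    rw [prod_empty, one_mul]
    refine le_of_eq ?_
    unfold ltrans TS
    simp
  | insert q s hq ih =>
    have h1 := step k hP s ⟨q, hs (mem_insert_self q s)⟩ hq y hy0 hy B
    have h2 := ih ((subset_insert q s).trans hs)
    have hq2 : (2 : ℝ) ≤ q := by exact_mod_cast hP q (hs (mem_insert_self q s))
    have hc : (0 : ℝ) ≤ 1 / ((q : ℝ) * (q - 1)) :=
      div_nonneg (by norm_num) (mul_nonneg (by linarith) (by linarith))
    rw [prod_insert hq, mul_assoc]
    refine h1.trans ?_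
    exact mul_le_mul_of_nonneg_left h2 (by positivity)

/-- the sum over primes -/
theorem sum_prim (w0 : ℕ) (hw : 1 ≤ w0) (s : Finset ℕ) (hs : ∀ p ∈ s, w0 < p) :
    ∑ q ∈ s, (1 / ((q : ℝ) * (q - 1))) ≤ 1 / w0 := by
  have key : ∀ N : ℕ, ∑ q ∈ Ioc w0 (w0 + N), (1 / ((q : ℝ) * (q - 1))) ≤ 1 / w0 - 1 / (w0 + N) := by
    intro N
    induction N with
    | zero => simp
    | succ N ih =>
      rw [← add_assoc, ← Finset.insert_Ioc_right_eq_Ioc_add_one (by omega), sum_insert (by simp)]
      push_cast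
      have hw' : (1 : ℝ) ≤ w0 := by exact_mod_cast hw
      have hN : (0 : ℝ) ≤ N := Nat.cast_nonneg N
      have e : 1 / (((w0 : ℝ) + N + 1) * ((w0 : ℝ) + N + 1 - 1)) =
          1 / (w0 + N) - 1 / (w0 + (N + 1)) := by
        have h1 : (w0 : ℝ) + N ≠ 0 := by positivity
        have h2 : (w0 : ℝ) + N + 1 ≠ 0 := by positivity
        have h3 : (w0 : ℝ) + (N + 1) ≠ 0 := by positivity
        have h4 : (w0 : ℝ) + N + 1 - 1 ≠ 0 := by rw [add_sub_cancel_right]; exact h1
        field_simp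
        ring
      rw [e]
      linarith
  have hw' : (1 : ℝ) ≤ w0 := by exact_mod_cast hw
  have hsub : s ⊆ Ioc w0 (w0 + s.sup id) := by
    intro p hp
    rw [mem_Ioc]
    exact ⟨hs p hp, le_trans (le_sup (f := id) hp) (Nat.le_add_left _ _)⟩
  refine (sum_le_sum_of_subset_of_nonneg hsub fun p hp _ => ?_).trans
    ((key _).trans (sub_le_self _ (by positivity)))
  have : (1 : ℝ) ≤ p := by
    have := (mem_Ioc.1 hp).1
    exact_mod_cast (by omega : 1 ≤ p)
  exact div_nonneg (by norm_num) (mul_nonneg (by linarith) (by linarith))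

theorem prod_bound (n w0 : ℕ) (hw : 41 * n + 1 ≤ w0) (s : Finset ℕ) (hs : ∀ p ∈ s, w0 < p) :
    ∏ q ∈ s, (1 + n * (1 / ((q : ℝ) * (q - 1)))) ≤ 41 / 40 := by
  have h0 : ∀ q ∈ s, (0 : ℝ) ≤ 1 / ((q : ℝ) * (q - 1)) := by
    intro q hq
    have : (1 : ℝ) ≤ q := by
      have := hs q hq
      exact_mod_cast (by omega : 1 ≤ q)
    exact div_nonneg (by norm_num) (mul_nonneg (by linarith) (by linarith))
  have h1 : ∏ q ∈ s, (1 + n * (1 / ((q : ℝ) * (q - 1)))) ≤
      Real.exp (∑ q ∈ s, n * (1 / ((q : ℝ) * (q - 1)))) := by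
    rw [Real.exp_sum]
    refine prod_le_prod (fun q hq => by have := h0 q hq; positivity) fun q _ => ?_
    rw [add_comm]; exact Real.add_one_le_exp _
  refine h1.trans ?_
  rw [← mul_sum]
  have h2 := sum_prim w0 (by omega) s hs
  have hw' : (41 * n + 1 : ℝ) ≤ w0 := by exact_mod_cast hw
  have hn : (0 : ℝ) ≤ n := Nat.cast_nonneg n
  have h3 : (n : ℝ) * ∑ q ∈ s, (1 / ((q : ℝ) * (q - 1))) ≤ 1 / 41 := by
    refine (mul_le_mul_of_nonneg_left h2 hn).trans ?_
    rw [mul_one_div, div_le_div_iff₀ (by linarith) (by norm_num)]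
    linarith
  refine (Real.exp_le_exp.2 h3).trans ?_
  have h4 : (40 : ℝ) / 41 ≤ Real.exp (-(1 / 41)) := by
    have := Real.add_one_le_exp (-(1 / 41 : ℝ))
    linarith
  rw [Real.exp_neg] at h4
  have h5 : 0 < Real.exp (1 / 41 : ℝ) := Real.exp_pos _
  rw [le_inv_comm₀ (by norm_num) h5] at h4
  norm_num at h4 ⊢
  exact h4

end CKLAux

open CKLAux in
theorem CKL : S_CKL := by
  intro n
  refine ⟨41 * n + 1, fun P hP k y hy0 hy B _ => ?_⟩
  have hP2 : ∀ p ∈ P, 2 ≤ p := fun p hp => (hP p hp).1.two_le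
  set cY := ltrans (mY k) y B with hcY
  set cK := ltrans (mK k) y B with hcK
  have hcY0 : 0 ≤ cY := sum_nonneg fun A _ => mul_nonneg (hy0 A) (prod_nonneg fun p _ => mY_nonneg _ _ _ _)
  set ε : ℝ := ∏ p : ↥P, sg (B p) with hε
  have hε1 : ε ^ 2 = 1 := by
    have : |ε| = 1 := by
      rw [hε, abs_prod, prod_congr rfl (fun p _ => abs_sg (B p)), prod_const_one]
    rw [← sq_abs, this]; norm_num
  have hfull := full k hP2 y hy0 hy B P subset_rfl
  have hTS : ltrans (TS k P) y B = ∑ A : Cfg P n, y A * ∏ p : ↥P, (mY k p (A p) (B p) + RX k p (A p) (B p)) := by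
    unfold ltrans
    refine sum_congr rfl fun A _ => ?_
    congr 1
    refine prod_congr rfl fun p _ => ?_
    unfold TS
    rw [if_pos p.2]
  have hdist : |ε * cK - cY| ≤ ltrans (TS k P) y B - cY := by
    rw [hTS, hcK, hcY]
    unfold ltrans
    rw [mul_sum, ← sum_sub_distrib, ← sum_sub_distrib]
    refine (abs_sum_le_sum_abs _ _).trans (sum_le_sum fun A _ => ?_)
    have := prod_cmp k (fun p hp => by have := hP2 p hp; omega) A B
    calc |ε * (y A * ∏ p : ↥P, mK k p (A p) (B p)) - y A * ∏ p : ↥P, mY k p (A p) (B p)|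
        = y A * |ε * (∏ p : ↥P, mK k p (A p) (B p)) - ∏ p : ↥P, mY k p (A p) (B p)| := by
          rw [show ε * (y A * ∏ p : ↥P, mK k p (A p) (B p)) - y A * ∏ p : ↥P, mY k p (A p) (B p) =
            y A * (ε * (∏ p : ↥P, mK k p (A p) (B p)) - ∏ p : ↥P, mY k p (A p) (B p)) by ring,
            abs_mul, abs_of_nonneg (hy0 A)]
      _ ≤ y A * (∏ p : ↥P, (mY k p (A p) (B p) + RX k p (A p) (B p)) - ∏ p : ↥P, mY k p (A p) (B p)) :=
          mul_le_mul_of_nonneg_left this (hy0 A)
      _ = _ := by ring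
  have hb := prod_bound n (41 * n + 1) le_rfl P fun p hp => (hP p hp).2
  have h1 : ltrans (TS k P) y B ≤ 41 / 40 * cY :=
    hfull.trans (mul_le_mul_of_nonneg_right hb hcY0)
  have h2 : |ε * cK - cY| ≤ 1 / 40 * cY := by linarith
  have h3 : 39 / 40 * cY ≤ ε * cK := by
    have := (abs_le.1 h2).1
    linarith
  have h4 : (39 / 40 * cY) ^ 2 ≤ (ε * cK) ^ 2 := pow_le_pow_left₀ (by positivity) h3 2
  rw [mul_pow, mul_pow, hε1, one_mul] at h4
  nlinarith [sq_nonneg cY]

end MTA
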