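import Pool.Agent.H20.MT.Stmts

/-!
# Project MTA, module WS1: main sum over configurations, with weight `1/qq`
-/

set_option autoImplicit false

namespace MTA
open Finset

namespace WS1Aux

theorem sum_sq (w0 : ℕ) (hw : 1 ≤ w0) (s : Finset ℕ) (hs : ∀ p ∈ s, w0 < p) :
    ∑ q ∈ s, (1 / (q : ℝ) ^ 2) ≤ 1 / (w0 : ℝ) := by
  have key : ∀ N : ℕ, ∑ q ∈ Ioc w0 (w0 + N), (1 / (q : ℝ) ^ 2) ≤
      1 / (w0 : ℝ) - 1 / ((w0 : ℝ) + (N : ℝ)) := by
    intro N
    induction N with
    | zero => simp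
    | succ N ih =>
      rw [← add_assoc, ← Finset.insert_Ioc_right_eq_Ioc_add_one (by omega), sum_insert (by simp)]
      push_cast
      have hw' : (1 : ℝ) ≤ w0 := by exact_mod_cast hw
      have hN : (0 : ℝ) ≤ N := Nat.cast_nonneg N
      have e : 1 / ((w0 : ℝ) + N + 1) ^ 2 ≤ 1 / (w0 + N) - 1 / (w0 + (N + 1)) := by
        have h1 : (0 : ℝ) < (w0 : ℝ) + N := by positivity
        have h3 : (0 : ℝ) < (w0 : ℝ) + (N + 1) := by positivity
        rw [div_sub_div _ _ h1.ne' h3.ne', div_le_div_iff₀ (by positivity) (by positivity)]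
        nlinarith
      linarith
  have hw' : (1 : ℝ) ≤ w0 := by exact_mod_cast hw
  have hsub : s ⊆ Ioc w0 (w0 + s.sup id) := by
    intro p hp
    rw [mem_Ioc]
    exact ⟨hs p hp, le_trans (le_sup (f := id) hp) (Nat.le_add_left _ _)⟩
  exact (sum_le_sum_of_subset_of_nonneg hsub fun p _ _ => by positivity).trans
    ((key _).trans (sub_le_self _ (by positivity)))

theorem GG_anti (α V : ℝ) (hα : 0 ≤ α) (a b : ℕ) (ha : 1 ≤ a) (hab : a ≤ b) :
    GG α V b ≤ GG α V a := by
  have ha' : (1 : ℝ) ≤ a := by exact_mod_cast ha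
  have hab' : (a : ℝ) ≤ b := by exact_mod_cast hab
  have hla : 0 ≤ Real.log a := Real.log_nonneg ha'
  have hlab : Real.log a ≤ Real.log b := Real.log_le_log (by linarith) hab'
  have h1 : 0 < 1 + α * Real.log a := by positivity
  have h2 : 1 + α * Real.log a ≤ 1 + α * Real.log b := by
    have := mul_le_mul_of_nonneg_left hlab hα
    linarith
  unfold GG
  by_cases hb : (b : ℝ) ≤ V
  · rw [if_pos hb, if_pos (hab'.trans hb)]
    exact one_div_le_one_div_of_le h1 h2
  · rw [if_neg hb]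
    split_ifs <;> positivity

theorem GG_nonneg (α V : ℝ) (hα : 0 ≤ α) (a : ℕ) (ha : 1 ≤ a) : 0 ≤ GG α V a := by
  have ha' : (1 : ℝ) ≤ a := by exact_mod_cast ha
  have hla : 0 ≤ Real.log a := Real.log_nonneg ha'
  unfold GG
  split_ifs <;> positivity

theorem SF_mem {W : ℕ} {y : ℝ} {a : ℕ} (h : a ∈ SF W y) :
    1 ≤ a ∧ (a : ℝ) ≤ y ∧ Squarefree a ∧ a.Coprime W := by
  obtain ⟨h1, h2, h3⟩ := mem_filter.1 h
  obtain ⟨h4, h5⟩ := mem_Icc.1 h1
  refine ⟨h4, ?_, h2, h3⟩
  by_cases hy : 0 ≤ y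
  · exact (Nat.cast_le.2 h5).trans (Nat.floor_le hy)
  · rw [Nat.floor_of_nonpos (not_le.1 hy).le] at h5
    omega

theorem mem_SF {W : ℕ} {y : ℝ} {a : ℕ} (h1 : 1 ≤ a) (h2 : (a : ℝ) ≤ y) (h3 : Squarefree a)
    (h4 : a.Coprime W) : a ∈ SF W y :=
  mem_filter.2 ⟨mem_Icc.2 ⟨h1, Nat.le_floor h2⟩, h3, h4⟩

/-- the part of a sum over multiples of `p` -/
theorem mult_le (W : ℕ) (y : ℝ) (g : ℕ → ℝ) (hg0 : ∀ a, 1 ≤ a → 0 ≤ g a)
    (hg : ∀ a b : ℕ, 1 ≤ a → a ≤ b → g b ≤ g a) (p : ℕ) (hp : p.Prime) :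
    ∑ a ∈ SF W y, (if p ∣ a then g a / a else 0) ≤ 1 / (p : ℝ) * ∑ a ∈ SF W y, g a / a := by
  have hp0 : (0 : ℝ) < p := by exact_mod_cast hp.pos
  rw [← sum_filter]
  have h1 : ∑ a ∈ SF W y with p ∣ a, g a / a ≤
      ∑ a ∈ SF W y with p ∣ a, 1 / (p : ℝ) * (g (a / p) / ((a / p : ℕ) : ℝ)) := by
    refine sum_le_sum fun a ha => ?_
    obtain ⟨ha1, b, rfl⟩ := mem_filter.1 ha
    have hb : 1 ≤ b := by
      have := (SF_mem ha1).1
      exact Nat.pos_of_ne_zero fun h => by simp [h] at this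
    rw [Nat.mul_div_cancel_left _ hp.pos]
    have hb0 : (0 : ℝ) < b := by exact_mod_cast hb
    have h2 := hg b (p * b) hb (Nat.le_mul_of_pos_left _ hp.pos)
    push_cast
    rw [one_div_mul_eq_div, div_div, mul_comm (b : ℝ) (p : ℝ)]
    exact div_le_div_of_nonneg_right h2 (by positivity)
  refine h1.trans ?_
  rw [← mul_sum]
  refine mul_le_mul_of_nonneg_left ?_ (by positivity)
  rw [← sum_image (s := (SF W y).filter fun a => p ∣ a) (g := fun a => a / p)
    (f := fun a : ℕ => g a / (a : ℝ))]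
  · refine sum_le_sum_of_subset_of_nonneg ?_ fun a ha _ =>
      div_nonneg (hg0 a (SF_mem ha).1) (Nat.cast_nonneg a)
    intro c hc
    obtain ⟨a, ha, rfl⟩ := mem_image.1 hc
    obtain ⟨ha1, b, rfl⟩ := mem_filter.1 ha
    obtain ⟨h1, h2, h3, h4⟩ := SF_mem ha1
    rw [Nat.mul_div_cancel_left _ hp.pos]
    have hb : 1 ≤ b := Nat.pos_of_ne_zero fun h => by simp [h] at h1
    refine mem_SF hb (le_trans ?_ h2) (h3.squarefree_of_dvd (Dvd.intro_left p rfl))
      (Nat.Coprime.coprime_mul_left h4)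
    exact_mod_cast Nat.le_mul_of_pos_left b hp.pos
  · intro a ha b hb h
    obtain ⟨a', rfl⟩ := (mem_filter.1 (mem_coe.1 ha)).2
    obtain ⟨b', rfl⟩ := (mem_filter.1 (mem_coe.1 hb)).2
    simp only [Nat.mul_div_cancel_left _ hp.pos] at h
    rw [h]

section conf
variable {P : Finset ℕ} {n : ℕ}

theorem qq_eq (B : Cfg P n) : qq B = ∏ l : Fin (n + 1), rr B l := by
  unfold qq rr
  rw [prod_comm]
  refine prod_congr rfl fun p _ => ?_
  rcases h : B p with _ | m
  · simp
  · simp only [Option.isSome_some, if_true, Option.some.injEq]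
    rw [prod_ite_eq univ m (fun _ => (p : ℕ)), if_pos (mem_univ m)]

theorem rr_avoid (B : Cfg P n) (l : Fin (n + 1)) (h : Avoid l B) : rr B l = 1 :=
  prod_eq_one fun p _ => if_neg (h p)

/-- labels of the index `l`: the index `k` gets the label `0` -/
def lab (k l : Fin n) : Fin (n + 1) := if l = k then 0 else l.succ

theorem lab_inj (k : Fin n) : Function.Injective (lab k) := by
  intro a b h
  unfold lab at h
  split_ifs at h with h1 h2 h2
  · rw [h1, h2]
  · exact absurd h.symm (Fin.succ_ne_zero b)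
  · exact absurd h (Fin.succ_ne_zero a)
  · exact Fin.succ_injective n h

open Classical in
/-- the configuration of a tuple -/
noncomputable def cfg (P : Finset ℕ) (k : Fin n) (r : Fin n → ℕ) : Cfg P n := fun p =>
  if h : ∃ l, (p : ℕ) ∣ r l then some (lab k h.choose) else none

theorem cfg_iff (hP : ∀ p ∈ P, p.Prime) (k : Fin n) (r : Fin n → ℕ)
    (hr : ∀ l l', l ≠ l' → (r l).Coprime (r l')) (p : ↥P) (l : Fin n) :
    cfg P k r p = some (lab k l) ↔ (p : ℕ) ∣ r l := by
  unfold cfg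
  constructor
  · intro h
    split_ifs at h with h1
    have h2 := lab_inj k (Option.some.inj h)
    rw [← h2]
    exact h1.choose_spec
  · intro h
    have h1 : ∃ l, (p : ℕ) ∣ r l := ⟨l, h⟩
    rw [dif_pos h1]
    by_contra h2
    have h3 : h1.choose ≠ l := fun h4 => h2 (by rw [h4])
    have h5 := hr _ _ h3
    exact (hP p p.2).one_lt.ne' (Nat.dvd_one.1 (h5 ▸ Nat.dvd_gcd h1.choose_spec h))

theorem cfg_avoid (k : Fin n) (r : Fin n → ℕ) : Avoid k.succ (cfg P k r) := by
  intro p h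
  unfold cfg at h
  split_ifs at h with h1
  have h2 := Option.some.inj h
  unfold lab at h2
  split_ifs at h2 with h3
  · exact absurd h2.symm (Fin.succ_ne_zero k)
  · exact h3 (Fin.succ_injective n h2)

theorem prod_prim (a : ℕ) (ha : Squarefree a) (hP : ∀ p ∈ P, p.Prime)
    (h : ∀ p : ℕ, p.Prime → p ∣ a → p ∈ P) :
    (∏ p : ↥P, if (p : ℕ) ∣ a then (p : ℕ) else 1) = a := by
  have h1 : (∏ p : ↥P, if (p : ℕ) ∣ a then (p : ℕ) else 1) =
      ∏ p ∈ P, if p ∣ a then p else 1 :=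
    prod_coe_sort P (fun p => if p ∣ a then p else 1)
  rw [h1, ← prod_filter]
  have h2 : P.filter (fun p => p ∣ a) = a.primeFactors := by
    ext p
    rw [mem_filter, Nat.mem_primeFactors]
    exact ⟨fun h => ⟨hP p h.1, h.2, ha.ne_zero⟩, fun h' => ⟨h p h'.1 h'.2.1, h'.2.1⟩⟩
  rw [h2]
  exact Nat.prod_primeFactors_of_squarefree ha

theorem rr_cfg (hP : ∀ p ∈ P, p.Prime) (k : Fin n) (r : Fin n → ℕ)
    (hr : ∀ l l', l ≠ l' → (r l).Coprime (r l')) (hsq : ∀ l, Squarefree (r l))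
    (h : ∀ l, ∀ p : ℕ, p.Prime → p ∣ r l → p ∈ P) (l : Fin n) :
    rr (cfg P k r) (lab k l) = r l := by
  refine Eq.trans ?_ (prod_prim (r l) (hsq l) hP (h l))
  unfold rr
  refine prod_congr rfl fun p _ => ?_
  by_cases h1 : (p : ℕ) ∣ r l
  · rw [if_pos h1, if_pos ((cfg_iff hP k r hr p l).2 h1)]
  · rw [if_neg h1, if_neg fun h2 => h1 ((cfg_iff hP k r hr p l).1 h2)]

end conf

end WS1Aux

open WS1Aux in
theorem WS1 : S_WS1 := by
  intro n hn
  refine ⟨12 * n ^ 2 + 2, fun W hW hsm Y R0 R V α hα hV hVR hVY hR0 hR0Y hyp k => ?_⟩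
  classical
  set w0 := 12 * n ^ 2 + 2 with hw0
  set P := PP W Y with hP
  have hPprime : ∀ p ∈ P, p.Prime := fun p hp => (mem_filter.1 hp).2.1
  have hPw : ∀ p ∈ P, w0 < p := by
    intro p hp
    by_contra h
    exact (mem_filter.1 hp).2.2 (hsm p (hPprime p hp) (not_lt.1 h))
  have hnn : (1 : ℝ) ≤ n := by exact_mod_cast hn
  set S : Finset (Cfg P n) := univ.filter fun B => Avoid k.succ B ∧ (rr B 0 : ℝ) ≤ R0 ∧
        (∏ l ∈ univ.erase k, (rr B l.succ : ℝ)) * V ≤ R with hS
  set F : Cfg P n → ℝ := fun B =>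
    (∏ l ∈ univ.erase k, GG α V (rr B l.succ)) ^ 2 / (qq B : ℝ) with hF
  have hF0 : ∀ B, 0 ≤ F B := fun B => div_nonneg (sq_nonneg _) (Nat.cast_nonneg _)
  -- the tuples
  set t : Fin n → Finset ℕ := fun l => if l = k then SF W R0 else SF W V with ht
  set g : Fin n → ℕ → ℝ := fun l a => if l = k then 1 else GG α V a ^ 2 with hg
  set w : Fin n → ℕ → ℝ := fun l a => g l a / a with hw
  have hlogRV : 0 < Real.log (R / V) := Real.log_pos (by rw [lt_div_iff₀ (by linarith)]; linarith)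
  have hg0 : ∀ l a, 1 ≤ a → 0 ≤ g l a := by
    intro l a _
    rw [hg]; simp only
    split_ifs <;> positivity
  have hganti : ∀ l, ∀ a b : ℕ, 1 ≤ a → a ≤ b → g l b ≤ g l a := by
    intro l a b ha hab
    rw [hg]; simp only
    split_ifs
    · exact le_rfl
    · exact pow_le_pow_left₀ (GG_nonneg α V hα b (ha.trans hab)) (GG_anti α V hα a b ha hab) 2
  have ht1 : ∀ l, ∃ y : ℝ, t l = SF W y ∧ y ≤ Y := by
    intro l
    rw [ht]; simp only
    split_ifs
    · exact ⟨R0, rfl, hR0Y⟩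
    · exact ⟨V, rfl, hVY⟩
  have htpos : ∀ l, ∀ a ∈ t l, 1 ≤ a := by
    intro l a ha
    obtain ⟨y, h1, _⟩ := ht1 l
    exact (SF_mem (h1 ▸ ha)).1
  have htsq : ∀ l, ∀ a ∈ t l, Squarefree a := by
    intro l a ha
    obtain ⟨y, h1, _⟩ := ht1 l
    exact (SF_mem (h1 ▸ ha)).2.2.1
  have htP : ∀ l, ∀ a ∈ t l, ∀ p : ℕ, p.Prime → p ∣ a → p ∈ P := by
    intro l a ha p hp hpa
    obtain ⟨y, h1, hy⟩ := ht1 l
    obtain ⟨h2, h3, _, h5⟩ := SF_mem (h1 ▸ ha)
    have h6 : (p : ℝ) ≤ Y := by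
      have : (p : ℝ) ≤ a := by exact_mod_cast Nat.le_of_dvd h2 hpa
      linarith
    refine mem_filter.2 ⟨mem_Icc.2 ⟨hp.two_le, Nat.le_floor h6⟩, hp, fun h7 => ?_⟩
    exact hp.one_lt.ne' (Nat.dvd_one.1 (h5 ▸ Nat.dvd_gcd hpa h7))
  have hw0' : ∀ l, ∀ a ∈ t l, 0 ≤ w l a := fun l a ha =>
    div_nonneg (hg0 l a (htpos l a ha)) (Nat.cast_nonneg a)
  set s : Fin n → ℝ := fun l => ∑ a ∈ t l, w l a with hs
  have hs0 : ∀ l, 0 ≤ s l := fun l => sum_nonneg fun a ha => hw0' l a ha
  have hsk : s k = Msum W R0 := by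
    rw [hs, ht, hw, hg]; simp only [if_pos]; rfl
  have hsl : ∀ l, l ≠ k → s l = A2s W V α := by
    intro l hl
    rw [hs, ht, hw, hg]; simp only [if_neg hl]; rfl
  set Full : ℝ := ∏ l, s l with hFull
  have hFull0 : 0 ≤ Full := prod_nonneg fun l _ => hs0 l
  have hFullEq : Full = Msum W R0 * (A2s W V α) ^ (n - 1) := by
    rw [hFull, ← mul_prod_erase univ s (mem_univ k), hsk,
      prod_congr rfl (fun l hl => hsl l (mem_erase.1 hl).1), prod_const,
      card_erase_of_mem (mem_univ k), card_univ, Fintype.card_fin]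
  set PI := Fintype.piFinset t with hPI
  have hmem : ∀ r ∈ PI, ∀ l, r l ∈ t l := fun r hr l => Fintype.mem_piFinset.1 hr l
  set T : (Fin n → ℕ) → ℝ := fun r => ∏ l, w l (r l) with hT
  have hT0 : ∀ r ∈ PI, 0 ≤ T r := fun r hr => prod_nonneg fun l _ => hw0' l _ (hmem r hr l)
  have hFullSum : Full = ∑ r ∈ PI, T r := by
    rw [hFull, hs, prod_univ_sum]
  set good : (Fin n → ℕ) → Prop := fun r =>
    (∀ l l', l ≠ l' → (r l).Coprime (r l')) ∧ (∏ l ∈ univ.erase k, (r l : ℝ)) * V ≤ R with hgood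
  -- Step 1
  have hrr0 : ∀ r ∈ PI, good r → ∀ l, rr (cfg P k r) (lab k l) = r l := fun r hr hgr l =>
    rr_cfg hPprime k r hgr.1 (fun l => htsq l _ (hmem r hr l)) (fun l => htP l _ (hmem r hr l)) l
  have hrrs : ∀ r ∈ PI, good r → ∀ l, l ≠ k → rr (cfg P k r) l.succ = r l := by
    intro r hr hgr l hl
    have := hrr0 r hr hgr l
    unfold lab at this
    rwa [if_neg hl] at this
  have hrrk : ∀ r ∈ PI, good r → rr (cfg P k r) 0 = r k := by
    intro r hr hgr
    have := hrr0 r hr hgr k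
    unfold lab at this
    rwa [if_pos rfl] at this
  have step1 : ∑ r ∈ PI with good r, T r ≤ ∑ B ∈ S, F B := by
    have e1 : ∑ r ∈ PI with good r, T r = ∑ r ∈ PI with good r, F (cfg P k r) := by
      refine sum_congr rfl fun r hr => ?_
      obtain ⟨hr1, hr2⟩ := mem_filter.1 hr
      rw [hT, hF]
      simp only
      rw [qq_eq, Fin.prod_univ_succ, ← mul_prod_erase univ (fun l : Fin n => rr (cfg P k r) l.succ) (mem_univ k),
        rr_avoid _ _ (cfg_avoid k r), one_mul, hrrk r hr1 hr2]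
      rw [prod_congr rfl (fun l hl => by rw [hrrs r hr1 hr2 l (mem_erase.1 hl).1] :
        ∀ l ∈ univ.erase k, rr (cfg P k r) l.succ = r l),
        prod_congr rfl (fun l hl => by rw [hrrs r hr1 hr2 l (mem_erase.1 hl).1] :
        ∀ l ∈ univ.erase k, GG α V (rr (cfg P k r) l.succ) = GG α V (r l))]
      rw [← mul_prod_erase univ (fun l : Fin n => w l (r l)) (mem_univ k), hw, hg]
      simp only [if_pos]
      rw [prod_congr rfl (fun l hl => by rw [if_neg (mem_erase.1 hl).1] :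
        ∀ l ∈ univ.erase k, (if l = k then 1 else GG α V (r l) ^ 2) / ((r l : ℕ) : ℝ) =
          GG α V (r l) ^ 2 / ((r l : ℕ) : ℝ)), prod_div_distrib, prod_pow]
      push_cast
      rw [one_div, inv_mul_eq_div, div_div, mul_comm (∏ l ∈ univ.erase k, ((r l : ℕ) : ℝ))]
    rw [e1, ← sum_image (s := PI.filter fun r => good r) (g := fun r => cfg P k r) (f := F)]
    · refine sum_le_sum_of_subset_of_nonneg ?_ fun B _ _ => hF0 B
      intro B hB
      obtain ⟨r, hr, rfl⟩ := mem_image.1 hB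
      obtain ⟨hr1, hr2⟩ := mem_filter.1 hr
      refine mem_filter.2 ⟨mem_univ _, cfg_avoid k r, ?_, ?_⟩
      · rw [hrrk r hr1 hr2]
        have := hmem r hr1 k
        rw [ht] at this
        simp only [if_pos] at this
        exact (SF_mem this).2.1
      · rw [prod_congr rfl (fun l hl => by rw [hrrs r hr1 hr2 l (mem_erase.1 hl).1] :
          ∀ l ∈ univ.erase k, ((rr (cfg P k r) l.succ : ℕ) : ℝ) = ((r l : ℕ) : ℝ))]
        exact hr2.2
    · intro r hr r' hr' h
      obtain ⟨hr1, hr2⟩ := mem_filter.1 (mem_coe.1 hr)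
      obtain ⟨hr1', hr2'⟩ := mem_filter.1 (mem_coe.1 hr')
      funext l
      rw [← hrr0 r hr1 hr2 l, ← hrr0 r' hr1' hr2' l]
      simp only at h
      rw [h]
  -- Step 2
  have hT1 : ∀ r ∈ PI, ∀ l, (1 : ℝ) ≤ r l := fun r hr l => by exact_mod_cast htpos l _ (hmem r hr l)
  have step2 : ∑ r ∈ PI with R < (∏ l ∈ univ.erase k, (r l : ℝ)) * V, T r ≤ 1 / 4 * Full := by
    have h1 : ∀ l, l ≠ k → n * ∑ r ∈ PI, Real.log (r l) * T r ≤ 1 / 4 * Real.log (R / V) * Full := by
      intro l hl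
      have e1 : ∑ r ∈ PI, Real.log (r l) * T r =
          ∏ j, ∑ a ∈ t j, (if j = l then Real.log a * w j a else w j a) := by
        rw [prod_univ_sum]
        refine sum_congr rfl fun r _ => ?_
        rw [hT]
        simp only
        rw [← mul_prod_erase univ (fun j => w j (r j)) (mem_univ l),
          ← mul_prod_erase univ (fun j => if j = l then Real.log (r j) * w j (r j) else w j (r j)) (mem_univ l),
          if_pos rfl, prod_congr rfl (fun j hj => by rw [if_neg (mem_erase.1 hj).1] :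
            ∀ j ∈ univ.erase l, (if j = l then Real.log (r j) * w j (r j) else w j (r j)) = w j (r j)), mul_assoc]
      have e2 : ∏ j, ∑ a ∈ t j, (if j = l then Real.log a * w j a else w j a) =
          A3s W V α * ∏ j ∈ univ.erase l, s j := by
        rw [← mul_prod_erase univ _ (mem_univ l)]
        congr 1
        · simp only [if_pos]
          rw [ht, hw, hg]
          simp only [if_neg hl]
          unfold A3s
          exact sum_congr rfl fun a _ => by ring
        · refine prod_congr rfl fun j hj => ?_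
          rw [hs]
          exact sum_congr rfl fun a _ => by rw [if_neg (mem_erase.1 hj).1]
      have e3 : Full = A2s W V α * ∏ j ∈ univ.erase l, s j := by
        rw [hFull, ← mul_prod_erase univ s (mem_univ l), hsl l hl]
      rw [e1, e2, e3]
      have h2 : 0 ≤ ∏ j ∈ univ.erase l, s j := prod_nonneg fun j _ => hs0 j
      calc n * (A3s W V α * ∏ j ∈ univ.erase l, s j) = (n * A3s W V α) * ∏ j ∈ univ.erase l, s j := by ring
        _ ≤ (1 / 4 * A2s W V α * Real.log (R / V)) * ∏ j ∈ univ.erase l, s j :=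
          mul_le_mul_of_nonneg_right hyp h2
        _ = _ := by ring
    have h2 : Real.log (R / V) * ∑ r ∈ PI with R < (∏ l ∈ univ.erase k, (r l : ℝ)) * V, T r ≤
        ∑ l ∈ univ.erase k, ∑ r ∈ PI, Real.log (r l) * T r := by
      rw [sum_comm, mul_sum]
      refine le_trans (sum_le_sum (f := fun r => Real.log (R / V) * T r)
        (g := fun r => ∑ l ∈ univ.erase k, Real.log (r l) * T r) fun r hr => ?_)
        (sum_le_sum_of_subset_of_nonneg (filter_subset _ _) fun r hr _ =>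
          sum_nonneg fun l _ => mul_nonneg (Real.log_nonneg (hT1 r hr l)) (hT0 r hr))
      obtain ⟨hr1, hr2⟩ := mem_filter.1 hr
      rw [← sum_mul]
      refine mul_le_mul_of_nonneg_right ?_ (hT0 r hr1)
      rw [← Real.log_prod (fun l _ => (by linarith [hT1 r hr1 l] : (r l : ℝ) ≠ 0))]
      exact Real.log_le_log (div_pos (by linarith) (by linarith)) ((div_le_iff₀ (by linarith)).2 hr2.le)
    have h3 : n * ∑ l ∈ univ.erase k, ∑ r ∈ PI, Real.log (r l) * T r ≤
        n * (1 / 4 * Real.log (R / V) * Full) := by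
      rw [mul_sum]
      refine (sum_le_sum fun l hl => h1 l (mem_erase.1 hl).1).trans ?_
      rw [sum_const, card_erase_of_mem (mem_univ k), card_univ, Fintype.card_fin, nsmul_eq_mul]
      refine mul_le_mul_of_nonneg_right ?_ (by positivity)
      exact_mod_cast Nat.sub_le n 1
    have h4 := le_of_mul_le_mul_left h3 (by linarith)
    have h5 := h2.trans h4
    have h6 : Real.log (R / V) * ∑ r ∈ PI with R < (∏ l ∈ univ.erase k, (r l : ℝ)) * V, T r ≤
        Real.log (R / V) * (1 / 4 * Full) := by linarith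
    exact le_of_mul_le_mul_left h6 hlogRV
  -- Step 3
  have step3 : ∑ r ∈ PI with ¬ (∀ l l', l ≠ l' → (r l).Coprime (r l')), T r ≤ 1 / 12 * Full := by
    have h1 : ∀ l l', l ≠ l' → ∀ p ∈ P, ∑ r ∈ PI, (if p ∣ r l ∧ p ∣ r l' then T r else 0) ≤
        1 / (p : ℝ) ^ 2 * Full := by
      intro l l' hll p hp
      have e1 : ∑ r ∈ PI, (if p ∣ r l ∧ p ∣ r l' then T r else 0) =
          ∏ j, ∑ a ∈ t j, (if j = l ∨ j = l' then (if p ∣ a then w j a else 0) else w j a) := by
        rw [prod_univ_sum]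
        refine sum_congr rfl fun r _ => ?_
        by_cases h : p ∣ r l ∧ p ∣ r l'
        · rw [if_pos h, hT]
          refine prod_congr rfl fun j _ => ?_
          by_cases hj : j = l ∨ j = l'
          · rw [if_pos hj]
            have : p ∣ r j := by
              rcases hj with rfl | rfl
              · exact h.1
              · exact h.2
            rw [if_pos this]
          · rw [if_neg hj]
        · rw [if_neg h]
          symm
          by_cases h2 : p ∣ r l
          · have h3 : ¬ p ∣ r l' := fun h4 => h ⟨h2, h4⟩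
            exact prod_eq_zero (mem_univ l') (by simp [h3])
          · exact prod_eq_zero (mem_univ l) (by simp [h2])
      rw [e1]
      have h2 : ∏ j, ∑ a ∈ t j, (if j = l ∨ j = l' then (if p ∣ a then w j a else 0) else w j a) ≤
          ∏ j, ((if j = l ∨ j = l' then 1 / (p : ℝ) else 1) * s j) := by
        refine prod_le_prod (fun j _ => sum_nonneg fun a ha => ?_) fun j _ => ?_
        · have := hw0' j a ha
          split_ifs <;> first | exact this | exact le_rfl
        · by_cases hj : j = l ∨ j = l'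
          · simp only [if_pos hj]
            obtain ⟨y, hy, _⟩ := ht1 j
            rw [hs]
            simp only
            rw [hy]
            exact mult_le W y (g j) (hg0 j) (hganti j) p (hPprime p hp)
          · simp only [if_neg hj, one_mul]
            exact le_rfl
      refine h2.trans (le_of_eq ?_)
      rw [prod_mul_distrib, ← hFull]
      congr 1
      rw [prod_ite, prod_const_one, mul_one, prod_const]
      have : (univ.filter fun j : Fin n => j = l ∨ j = l') = {l, l'} := by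
        ext j; simp
      rw [this, card_pair hll, one_div, inv_pow, one_div]
    have h2 : ∑ r ∈ PI with ¬ (∀ l l', l ≠ l' → (r l).Coprime (r l')), T r ≤
        ∑ l, ∑ l' ∈ univ.erase l, ∑ p ∈ P, ∑ r ∈ PI, (if p ∣ r l ∧ p ∣ r l' then T r else 0) := by
      have hnn0 : ∀ r ∈ PI, ∀ l l' : Fin n, ∀ p : ℕ, 0 ≤ (if p ∣ r l ∧ p ∣ r l' then T r else 0) := by
        intro r hr l l' p
        split_ifs
        · exact hT0 r hr
        · exact le_rfl
      have e1' : ∑ l, ∑ l' ∈ univ.erase l, ∑ p ∈ P, ∑ r ∈ PI, (if p ∣ r l ∧ p ∣ r l' then T r else 0) =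
          ∑ r ∈ PI, ∑ l, ∑ l' ∈ univ.erase l, ∑ p ∈ P, (if p ∣ r l ∧ p ∣ r l' then T r else 0) := by
        symm
        rw [sum_comm (s := PI) (t := univ)]
        refine sum_congr rfl fun l _ => ?_
        rw [sum_comm (s := PI) (t := univ.erase l)]
        refine sum_congr rfl fun l' _ => ?_
        rw [sum_comm (s := PI) (t := P)]
      rw [e1']
      refine le_trans (sum_le_sum (f := T)
        (g := fun r => ∑ l, ∑ l' ∈ univ.erase l, ∑ p ∈ P, (if p ∣ r l ∧ p ∣ r l' then T r else 0))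
        fun r hr => ?_)
        (sum_le_sum_of_subset_of_nonneg (filter_subset _ _) fun r hr _ =>
          sum_nonneg fun l _ => sum_nonneg fun l' _ => sum_nonneg fun p _ => hnn0 r hr l l' p)
      obtain ⟨hr1, hr2⟩ := mem_filter.1 hr
      push Not at hr2
      obtain ⟨l, l', hll, hco⟩ := hr2
      obtain ⟨p, hp, hpl, hpl'⟩ := Nat.Prime.not_coprime_iff_dvd.1 hco
      have hpP : p ∈ P := htP l _ (hmem r hr1 l) p hp hpl
      calc T r = (if p ∣ r l ∧ p ∣ r l' then T r else 0) := by rw [if_pos ⟨hpl, hpl'⟩]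
        _ ≤ ∑ p ∈ P, (if p ∣ r l ∧ p ∣ r l' then T r else 0) :=
          single_le_sum (f := fun p => if p ∣ r l ∧ p ∣ r l' then T r else 0)
            (fun p _ => hnn0 r hr1 l l' p) hpP
        _ ≤ ∑ l' ∈ univ.erase l, ∑ p ∈ P, (if p ∣ r l ∧ p ∣ r l' then T r else 0) :=
          single_le_sum (f := fun l' => ∑ p ∈ P, (if p ∣ r l ∧ p ∣ r l' then T r else 0))
            (fun l' _ => sum_nonneg fun p _ => hnn0 r hr1 l l' p) (mem_erase.2 ⟨hll.symm, mem_univ l'⟩)
        _ ≤ _ :=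
          single_le_sum (f := fun l => ∑ l' ∈ univ.erase l, ∑ p ∈ P, (if p ∣ r l ∧ p ∣ r l' then T r else 0))
            (fun l _ => sum_nonneg fun l' _ => sum_nonneg fun p _ => hnn0 r hr1 l l' p) (mem_univ l)
    refine h2.trans ?_
    have h3 : ∀ l : Fin n, ∑ l' ∈ univ.erase l, ∑ p ∈ P, ∑ r ∈ PI, (if p ∣ r l ∧ p ∣ r l' then T r else 0) ≤
        ∑ l' ∈ univ.erase l, 1 / (w0 : ℝ) * Full := by
      intro l
      refine sum_le_sum fun l' hl' => ?_
      refine (sum_le_sum fun p hp => h1 l l' (mem_erase.1 hl').1.symm p hp).trans ?_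
      rw [← sum_mul]
      exact mul_le_mul_of_nonneg_right (sum_sq w0 (by omega) P hPw) hFull0
    refine (sum_le_sum fun l _ => h3 l).trans ?_
    have hw0R : (w0 : ℝ) = 12 * n ^ 2 + 2 := by rw [hw0]; push_cast; ring
    have h4 : ∀ l : Fin n, ∑ l' ∈ univ.erase l, 1 / (w0 : ℝ) * Full = ((n - 1 : ℕ) : ℝ) * (1 / (w0 : ℝ) * Full) := by
      intro l
      rw [sum_const, card_erase_of_mem (mem_univ l), card_univ, Fintype.card_fin, nsmul_eq_mul]
    rw [sum_congr rfl fun l _ => h4 l, sum_const, card_univ, Fintype.card_fin, nsmul_eq_mul]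
    have h5 : ((n - 1 : ℕ) : ℝ) ≤ n := by exact_mod_cast Nat.sub_le n 1
    have h6 : (n : ℝ) * n * (1 / (w0 : ℝ)) ≤ 1 / 12 := by
      rw [mul_one_div, div_le_div_iff₀ (by rw [hw0R]; positivity) (by norm_num), hw0R]
      nlinarith
    have h7 : (0 : ℝ) ≤ 1 / (w0 : ℝ) := by positivity
    calc (n : ℝ) * (((n - 1 : ℕ) : ℝ) * (1 / (w0 : ℝ) * Full))
        ≤ (n : ℝ) * (n * (1 / (w0 : ℝ) * Full)) :=
          mul_le_mul_of_nonneg_left (mul_le_mul_of_nonneg_right h5 (by positivity)) (by linarith)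
      _ = (n : ℝ) * n * (1 / (w0 : ℝ)) * Full := by ring
      _ ≤ 1 / 12 * Full := mul_le_mul_of_nonneg_right h6 hFull0
  -- Step 4
  have step4 : Full ≤ ∑ r ∈ PI with good r, T r +
      ∑ r ∈ PI with R < (∏ l ∈ univ.erase k, (r l : ℝ)) * V, T r +
      ∑ r ∈ PI with ¬ (∀ l l', l ≠ l' → (r l).Coprime (r l')), T r := by
    rw [hFullSum, sum_filter, sum_filter, sum_filter, ← sum_add_distrib, ← sum_add_distrib]
    refine sum_le_sum fun r hr => ?_
    have h0 := hT0 r hr
    by_cases h1 : ∀ l l', l ≠ l' → (r l).Coprime (r l')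
    · by_cases h2 : R < (∏ l ∈ univ.erase k, (r l : ℝ)) * V
      · rw [if_pos h2, if_neg (not_not.2 h1)]
        split_ifs <;> linarith
      · rw [if_neg h2, if_pos (show good r from ⟨h1, not_lt.1 h2⟩)]
        split_ifs <;> linarith
    · rw [if_pos h1]
      split_ifs <;> linarith
  have hfin : 2 / 3 * Full ≤ ∑ B ∈ S, F B := by linarith
  calc 2 / 3 * Msum W R0 * (A2s W V α) ^ (n - 1) = 2 / 3 * Full := by rw [hFullEq]; ring
    _ ≤ _ := hfin

end MTA
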