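import Pool.Agent.H20.MT.Stmts

/-!
# Project MTA, module WS2: the arithmetic factor costs little
-/

set_option autoImplicit false

namespace MTA
open Finset

namespace WS2Aux

variable {P : Finset ℕ} {n : ℕ}

theorem one_sub_sum_le_prod {ι : Type*} (s : Finset ι) (x : ι → ℝ) (h0 : ∀ i ∈ s, 0 ≤ x i)
    (h1 : ∀ i ∈ s, x i ≤ 1) : 1 - ∑ i ∈ s, x i ≤ ∏ i ∈ s, (1 - x i) := by
  classical
  induction s using Finset.induction with
  | empty => simp
  | insert a s ha ih =>
    have ih' := ih (fun i hi => h0 i (mem_insert_of_mem hi)) (fun i hi => h1 i (mem_insert_of_mem hi))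
    rw [sum_insert ha, prod_insert ha]
    have ha0 := h0 a (mem_insert_self _ _)
    have ha1 := h1 a (mem_insert_self _ _)
    have hs0 : 0 ≤ ∑ i ∈ s, x i := sum_nonneg fun i hi => h0 i (mem_insert_of_mem hi)
    calc 1 - (x a + ∑ i ∈ s, x i) ≤ (1 - x a) * (1 - ∑ i ∈ s, x i) := by nlinarith
      _ ≤ (1 - x a) * ∏ i ∈ s, (1 - x i) := mul_le_mul_of_nonneg_left ih' (by linarith)

theorem sum_sq (w0 : ℕ) (hw : 1 ≤ w0) (s : Finset ℕ) (hs : ∀ p ∈ s, w0 < p) :
    ∑ q ∈ s, (1 / (q : ℝ) ^ 2) ≤ 1 / (w0 : ℝ) := by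
  have key : ∀ N : ℕ, ∑ q ∈ Ioc w0 (w0 + N), (1 / (q : ℝ) ^ 2) ≤ 1 / (w0 : ℝ) - 1 / ((w0 : ℝ) + (N : ℝ)) := by
    intro N
    induction N with
    | zero => simp
    | succ N ih =>
      rw [← add_assoc, ← Finset.insert_Ioc_right_eq_Ioc_add_one (by omega), sum_insert (by simp)]
      push_cast
      have hw' : (1 : ℝ) ≤ w0 := by exact_mod_cast hw
      have hN : (0 : ℝ) ≤ N := Nat.cast_nonneg N
      have e : 1 / ((w0 : ℝ) + N + 1) ^ 2 ≤ 1 / (w0 + N) - 1 / (w0 + (N + 1)) := by
        have h1 : (0 : ℝ) < (w0 : ℝ) + N := by positivity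
        have h3 : (0 : ℝ) < (w0 : ℝ) + (N + 1) := by positivity
        rw [div_sub_div _ _ h1.ne' h3.ne', div_le_div_iff₀ (by positivity) (by positivity)]
        nlinarith
      linarith
  have hw' : (1 : ℝ) ≤ w0 := by exact_mod_cast hw
  have hsub : s ⊆ Ioc w0 (w0 + s.sup id) := by
    intro p hp
    rw [mem_Ioc]
    exact ⟨hs p hp, le_trans (le_sup (f := id) hp) (Nat.le_add_left _ _)⟩
  exact (sum_le_sum_of_subset_of_nonneg hsub fun p _ _ => by positivity).trans
    ((key _).trans (sub_le_self _ (by positivity)))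

theorem rr_update_ne (B : Cfg P n) (q : ↥P) (l m : Fin (n + 1)) (hB : B q = some m) (h : m ≠ l) :
    rr (Function.update B q none) l = rr B l := by
  unfold rr
  refine prod_congr rfl fun p _ => ?_
  by_cases hp : p = q
  · subst hp; simp [hB, h]
  · rw [Function.update_of_ne hp]

theorem rr_update_eq (B : Cfg P n) (q : ↥P) (l : Fin (n + 1)) (hB : B q = some l) :
    rr B l = q * rr (Function.update B q none) l := by
  classical
  unfold rr
  rw [← mul_prod_erase univ _ (mem_univ q), ← mul_prod_erase univ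
    (fun p : ↥P => if (Function.update B q none) p = some l then (p : ℕ) else 1) (mem_univ q)]
  rw [if_pos hB, Function.update_self]
  simp only [reduceCtorEq, if_false, one_mul]
  congr 1
  refine prod_congr rfl fun p hp => ?_
  rw [Function.update_of_ne (mem_erase.1 hp).1]

theorem qq_update (B : Cfg P n) (q : ↥P) (l : Fin (n + 1)) (hB : B q = some l) :
    qq B = q * qq (Function.update B q none) := by
  classical
  unfold qq
  rw [← mul_prod_erase univ _ (mem_univ q), ← mul_prod_erase univ
    (fun p : ↥P => if ((Function.update B q none) p).isSome then (p : ℕ) else 1) (mem_univ q)]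
  rw [Function.update_self, hB]
  simp only [Option.isSome_some, if_true, Option.isSome_none, Bool.false_eq_true, if_false, one_mul]
  congr 1
  refine prod_congr rfl fun p hp => ?_
  rw [Function.update_of_ne (mem_erase.1 hp).1]

theorem rr_pos (hP : ∀ p ∈ P, 1 ≤ p) (B : Cfg P n) (l : Fin (n + 1)) : 1 ≤ rr B l := by
  unfold rr
  refine Nat.one_le_iff_ne_zero.2 (prod_ne_zero_iff.2 fun p _ => ?_)
  have := hP p p.2
  split_ifs <;> omega

theorem qq_pos (hP : ∀ p ∈ P, 1 ≤ p) (B : Cfg P n) : 1 ≤ qq B := by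
  unfold qq
  refine Nat.one_le_iff_ne_zero.2 (prod_ne_zero_iff.2 fun p _ => ?_)
  have := hP p p.2
  split_ifs <;> omega

theorem rr_update_le (hP : ∀ p ∈ P, 1 ≤ p) (B : Cfg P n) (q : ↥P) (m : Fin (n + 1))
    (hB : B q = some m) (l : Fin (n + 1)) : rr (Function.update B q none) l ≤ rr B l := by
  by_cases h : m = l
  · subst h
    rw [rr_update_eq B q m hB]
    exact Nat.le_mul_of_pos_left _ (hP q q.2)
  · rw [rr_update_ne B q l m hB h]

theorem GG_anti (α V : ℝ) (hα : 0 ≤ α) (a b : ℕ) (ha : 1 ≤ a) (hab : a ≤ b) :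
    GG α V b ≤ GG α V a := by
  have ha' : (1 : ℝ) ≤ a := by exact_mod_cast ha
  have hab' : (a : ℝ) ≤ b := by exact_mod_cast hab
  have hla : 0 ≤ Real.log a := Real.log_nonneg ha'
  have hlab : Real.log a ≤ Real.log b := Real.log_le_log (by linarith) hab'
  have h1 : 0 < 1 + α * Real.log a := by positivity
  have h2 : 1 + α * Real.log a ≤ 1 + α * Real.log b := by
    have := mul_le_mul_of_nonneg_left hlab hα
    linarith
  unfold GG
  by_cases hb : (b : ℝ) ≤ V
  · rw [if_pos hb, if_pos (hab'.trans hb)]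
    exact one_div_le_one_div_of_le h1 h2
  · rw [if_neg hb]
    split_ifs <;> positivity

theorem GG_nonneg (α V : ℝ) (hα : 0 ≤ α) (a : ℕ) (ha : 1 ≤ a) : 0 ≤ GG α V a := by
  have ha' : (1 : ℝ) ≤ a := by exact_mod_cast ha
  have hla : 0 ≤ Real.log a := Real.log_nonneg ha'
  unfold GG
  split_ifs <;> positivity

end WS2Aux

open WS2Aux in
theorem WS2 : S_WS2 := by
  intro n hn
  refine ⟨16 * (2 * n + 1) * n + 2, fun W hW hsm Y R0 R V α hα hV k => ?_⟩
  classical
  set w0 := 16 * (2 * n + 1) * n + 2 with hw0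
  set P := PP W Y with hP
  have hPprime : ∀ p ∈ P, p.Prime := fun p hp => (mem_filter.1 hp).2.1
  have hPw : ∀ p ∈ P, w0 < p := by
    intro p hp
    by_contra h
    exact (mem_filter.1 hp).2.2 (hsm p (hPprime p hp) (not_lt.1 h))
  have hP1 : ∀ p ∈ P, 1 ≤ p := fun p hp => (hPprime p hp).one_lt.le
  have hnn : (0 : ℝ) ≤ n := Nat.cast_nonneg n
  set S : Finset (Cfg P n) := univ.filter fun B => Avoid k.succ B ∧ (rr B 0 : ℝ) ≤ R0 ∧
        (∏ l ∈ univ.erase k, (rr B l.succ : ℝ)) * V ≤ R with hS
  set G : Cfg P n → ℝ := fun B => ∏ l ∈ univ.erase k, GG α V (rr B l.succ) with hG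
  set F : Cfg P n → ℝ := fun B => G B ^ 2 / (qq B : ℝ) with hF
  have hG0 : ∀ B, 0 ≤ G B := fun B => prod_nonneg fun l _ => GG_nonneg α V hα _ (rr_pos hP1 B _)
  have hqq : ∀ B : Cfg P n, (1 : ℝ) ≤ qq B := fun B => by exact_mod_cast qq_pos hP1 B
  have hF0 : ∀ B, 0 ≤ F B := fun B => div_nonneg (sq_nonneg _) (by linarith [hqq B])
  set x : ℕ → ℝ := fun p => (2 * n + 1) / p with hx
  have hx0 : ∀ p, 0 ≤ x p := fun p => by positivity
  have hx1 : ∀ p ∈ P, x p ≤ 1 := by
    intro p hp
    have h1 : (w0 : ℝ) < p := by exact_mod_cast hPw p hp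
    have h2 : (2 * n + 1 : ℝ) ≤ w0 := by
      have : 2 * n + 1 ≤ w0 := by rw [hw0]; nlinarith
      exact_mod_cast this
    rw [hx]
    simp only
    rw [div_le_one (by linarith)]
    linarith
  -- pointwise lower bound for sprod
  have hloc : ∀ p ∈ P, 1 / (p : ℝ) * (1 - x p) ≤
      1 / ((p : ℝ) - 1) * (1 - n / ((p : ℝ) - 1)) * (1 - 1 / (p : ℝ)) ^ 2 := by
    intro p hp
    have h1 : (w0 : ℝ) < p := by exact_mod_cast hPw p hp
    have h2 : (2 * n + 2 : ℝ) ≤ w0 := by
      have : 2 * n + 2 ≤ w0 := by rw [hw0]; nlinarith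
      exact_mod_cast this
    have hp0 : (0 : ℝ) < p := by linarith
    have hp1 : (0 : ℝ) < (p : ℝ) - 1 := by linarith
    have e1 : 1 / ((p : ℝ) - 1) * (1 - n / ((p : ℝ) - 1)) * (1 - 1 / (p : ℝ)) ^ 2 =
        1 / (p : ℝ) * ((1 - n / ((p : ℝ) - 1)) * (1 - 1 / p)) := by
      field_simp
    rw [e1]
    refine mul_le_mul_of_nonneg_left ?_ (by positivity)
    have h3 : (n : ℝ) / (p - 1) ≤ 2 * n / p := by
      rw [div_le_div_iff₀ hp1 hp0]
      nlinarith
    have h4 : 0 ≤ (n : ℝ) / (p - 1) := by positivity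
    have h5 : 0 ≤ 1 / (p : ℝ) := by positivity
    have e2 : x p = 2 * n / p + 1 / p := by
      rw [hx]; simp only; ring
    rw [e2]
    nlinarith [mul_nonneg h4 h5]
  have hsp : ∀ B : Cfg P n, 1 / (qq B : ℝ) * (1 - ∑ p : ↥P, if (B p).isSome then x p else 0) ≤
      sprod (fun p => 1 / ((p : ℝ) - 1) * (1 - n / ((p : ℝ) - 1)) * (1 - 1 / (p : ℝ)) ^ 2) B := by
    intro B
    have e1 : 1 / (qq B : ℝ) = ∏ p : ↥P, (if (B p).isSome then 1 / (p : ℝ) else 1) := by
      unfold qq
      push_cast
      rw [one_div, ← prod_inv_distrib]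
      refine prod_congr rfl fun p _ => ?_
      split_ifs <;> simp
    have h2 := one_sub_sum_le_prod (univ : Finset ↥P) (fun p => if (B p).isSome then x p else 0)
      (fun p _ => by split_ifs <;> [exact hx0 p; exact le_rfl])
      (fun p _ => by split_ifs <;> [exact hx1 p p.2; norm_num])
    have h3 : 0 ≤ 1 / (qq B : ℝ) := by have := hqq B; positivity
    refine (mul_le_mul_of_nonneg_left h2 h3).trans ?_
    rw [e1, ← prod_mul_distrib]
    unfold sprod
    refine prod_le_prod (fun p _ => ?_) fun p _ => ?_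
    · have := hx1 p p.2
      split_ifs
      · exact mul_nonneg (by positivity) (by linarith)
      · norm_num
    · split_ifs
      · exact hloc p p.2
      · norm_num
  -- sum of the errors
  have herr : ∑ B ∈ S, F B * ∑ p : ↥P, (if (B p).isSome then x p else 0) ≤ 1 / 16 * ∑ B ∈ S, F B := by
    have hSF : 0 ≤ ∑ B ∈ S, F B := sum_nonneg fun B _ => hF0 B
    have hp : ∀ p : ↥P, ∑ B ∈ S, F B * (if (B p).isSome then x p else 0) ≤
        (2 * n + 1) * n * (1 / ((p : ℕ) : ℝ) ^ 2) * ∑ B ∈ S, F B := by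
      intro q
      have hq1 : (0 : ℝ) < (q : ℕ) := by exact_mod_cast hP1 q q.2
      have e1 : ∑ B ∈ S, F B * (if (B q).isSome then x q else 0) =
          ∑ o : Option (Fin (n + 1)), ∑ B ∈ S with B q = o, F B * (if (B q).isSome then x q else 0) :=
        (sum_fiberwise S (fun B : Cfg P n => B q) _).symm
      rw [e1, Fintype.sum_option]
      have h0 : ∑ B ∈ S with B q = none, F B * (if (B q).isSome then x q else 0) = 0 := by
        refine sum_eq_zero fun B hB => ?_
        rw [(mem_filter.1 hB).2]; simp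
      rw [h0, zero_add]
      have h1 : ∀ l : Fin (n + 1), ∑ B ∈ S with B q = some l, F B * (if (B q).isSome then x q else 0) ≤
          if l = k.succ then 0 else x q * (1 / (q : ℕ)) * ∑ B ∈ S, F B := by
        intro l
        by_cases hl : l = k.succ
        · rw [if_pos hl]
          refine le_of_eq (sum_eq_zero fun B hB => ?_)
          exfalso
          have h2 := (mem_filter.1 hB)
          have h3 := (mem_filter.1 h2.1).2.1
          exact h3 q (by rw [h2.2, hl])
        rw [if_neg hl, mul_sum]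
        have h2 : ∑ B ∈ S with B q = some l, F B * (if (B q).isSome then x q else 0) ≤
            ∑ B ∈ S with B q = some l, x q * (1 / (q : ℕ)) * F (Function.update B q none) := by
          refine sum_le_sum fun B hB => ?_
          have hBq := (mem_filter.1 hB).2
          rw [hBq]
          simp only [Option.isSome_some, if_true]
          have hFle : F B ≤ 1 / (q : ℕ) * F (Function.update B q none) := by
            have e2 : (qq B : ℝ) = (q : ℕ) * (qq (Function.update B q none) : ℝ) := by
              exact_mod_cast qq_update B q l hBq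
            have hq' := hqq (Function.update B q none)
            have hGle : G B ≤ G (Function.update B q none) := by
              refine prod_le_prod (fun m _ => GG_nonneg α V hα _ (rr_pos hP1 B _)) fun m _ => ?_
              exact GG_anti α V hα _ _ (rr_pos hP1 _ _) (rr_update_le hP1 B q l hBq _)
            have hGsq : G B ^ 2 ≤ G (Function.update B q none) ^ 2 := pow_le_pow_left₀ (hG0 B) hGle 2
            have e3 : F B = 1 / (q : ℕ) * (G B ^ 2 / (qq (Function.update B q none) : ℝ)) := by
              rw [hF]; simp only; rw [e2]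
              field_simp
            rw [e3]
            refine mul_le_mul_of_nonneg_left ?_ (by positivity)
            exact div_le_div_of_nonneg_right hGsq (by linarith)
          have := mul_le_mul_of_nonneg_left hFle (hx0 q)
          calc F B * x q = x q * F B := mul_comm _ _
            _ ≤ x q * (1 / (q : ℕ) * F (Function.update B q none)) := this
            _ = _ := by ring
        refine h2.trans ?_
        rw [← sum_image (s := S.filter fun B : Cfg P n => B q = some l)
          (g := fun B => Function.update B q none)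
          (f := fun B => x q * (1 / (q : ℕ)) * F B)]
        · refine sum_le_sum_of_subset_of_nonneg ?_ fun B _ _ =>
            mul_nonneg (mul_nonneg (hx0 q) (by positivity)) (hF0 B)
          intro B' hB'
          obtain ⟨B, hB, rfl⟩ := mem_image.1 hB'
          obtain ⟨hBS, hBq⟩ := mem_filter.1 hB
          obtain ⟨hA, h0, hR⟩ := (mem_filter.1 hBS).2
          refine mem_filter.2 ⟨mem_univ _, ?_, ?_, ?_⟩
          · intro p
            by_cases hp : p = q
            · subst hp; simp
            · rw [Function.update_of_ne hp]; exact hA p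
          · refine le_trans ?_ h0
            exact_mod_cast rr_update_le hP1 B q l hBq _
          · refine le_trans (mul_le_mul_of_nonneg_right ?_ hV) hR
            refine prod_le_prod (fun m _ => by positivity) fun m _ => ?_
            exact_mod_cast rr_update_le hP1 B q l hBq _
        · intro A hA A' hA' h
          simp only [coe_filter, Set.mem_ofPred_eq] at hA hA'
          funext p
          by_cases hpq : p = q
          · subst hpq; rw [hA.2, hA'.2]
          · have := congrFun h p
            simpa [Function.update_of_ne hpq] using this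
      refine (sum_le_sum fun l _ => h1 l).trans (le_of_eq ?_)
      rw [← add_sum_erase univ _ (mem_univ k.succ), if_pos rfl, zero_add,
        sum_congr rfl (fun l hl => if_neg (mem_erase.1 hl).1), sum_const,
        card_erase_of_mem (mem_univ k.succ), card_univ, Fintype.card_fin, nsmul_eq_mul]
      rw [hx]
      simp only [Nat.add_sub_cancel]
      ring
    have e1 : ∑ B ∈ S, F B * ∑ p : ↥P, (if (B p).isSome then x p else 0) =
        ∑ p : ↥P, ∑ B ∈ S, F B * (if (B p).isSome then x p else 0) := by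
      rw [sum_comm]
      exact sum_congr rfl fun B _ => mul_sum _ _ _
    rw [e1]
    refine (sum_le_sum fun p _ => hp p).trans ?_
    rw [← sum_mul, ← mul_sum]
    refine mul_le_mul_of_nonneg_right ?_ hSF
    have h3 := sum_sq w0 (by omega) P hPw
    have e2 : ∑ p : ↥P, (1 / ((p : ℕ) : ℝ) ^ 2) = ∑ p ∈ P, (1 / (p : ℝ) ^ 2) :=
      sum_coe_sort P (fun p : ℕ => 1 / (p : ℝ) ^ 2)
    rw [e2]
    refine (mul_le_mul_of_nonneg_left h3 (by positivity)).trans ?_
    have hw0' : (w0 : ℝ) = 16 * (2 * n + 1) * n + 2 := by rw [hw0]; push_cast; ring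
    rw [mul_one_div, div_le_div_iff₀ (by rw [hw0']; positivity) (by norm_num), hw0']
    nlinarith
  have hfin : ∑ B ∈ S, F B - ∑ B ∈ S, F B * ∑ p : ↥P, (if (B p).isSome then x p else 0) ≤
      ∑ B ∈ S, G B ^ 2 *
        sprod (fun p => 1 / ((p : ℝ) - 1) * (1 - n / ((p : ℝ) - 1)) * (1 - 1 / (p : ℝ)) ^ 2) B := by
    rw [← sum_sub_distrib]
    refine sum_le_sum fun B _ => ?_
    refine le_trans (le_of_eq ?_) (mul_le_mul_of_nonneg_left (hsp B) (sq_nonneg (G B)))
    rw [hF]
    simp only
    ring
  have hgoal : 15 / 16 * ∑ B ∈ S, F B ≤ ∑ B ∈ S, G B ^ 2 *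
        sprod (fun p => 1 / ((p : ℝ) - 1) * (1 - n / ((p : ℝ) - 1)) * (1 - 1 / (p : ℝ)) ^ 2) B := by
    linarith
  exact hgoal

end MTA
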